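import Pool.Agent.Helper71.PY.Goals

/-!
# `S ⊥ (-D)` stably hyperbolic implies `S ≅ D`
-/

set_option autoImplicit false

namespace Pool.Agent.Helper32.PY

open Pool.Agent.Helper71.PY Matrix

section iso

variable {R : Type} [CommRing R]
variable {N N' N'' M M' : Type} [AddCommGroup N] [Module R N] [AddCommGroup N'] [Module R N']
  [AddCommGroup N''] [Module R N''] [AddCommGroup M] [Module R M] [AddCommGroup M'] [Module R M']

theorem iso_refl (B : N →ₗ[R] N →ₗ[R] R) : Iso B B := ⟨LinearEquiv.refl R N, fun _ _ => rfl⟩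

theorem iso_symm {B : N →ₗ[R] N →ₗ[R] R} {B' : N' →ₗ[R] N' →ₗ[R] R} (h : Iso B B') : Iso B' B := by
  obtain ⟨e, he⟩ := h
  refine ⟨e.symm, fun v w => ?_⟩
  rw [← he]
  simp

theorem iso_trans {B : N →ₗ[R] N →ₗ[R] R} {B' : N' →ₗ[R] N' →ₗ[R] R}
    {B'' : N'' →ₗ[R] N'' →ₗ[R] R} (h : Iso B B') (h' : Iso B' B'') : Iso B B'' := by
  obtain ⟨e, he⟩ := h
  obtain ⟨f, hf⟩ := h'
  refine ⟨e.trans f, fun v w => ?_⟩
  rw [LinearEquiv.trans_apply, LinearEquiv.trans_apply, hf, he]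

theorem os_congr {B : N →ₗ[R] N →ₗ[R] R} {B' : N' →ₗ[R] N' →ₗ[R] R}
    {C : M →ₗ[R] M →ₗ[R] R} {C' : M' →ₗ[R] M' →ₗ[R] R} (h : Iso B B') (h' : Iso C C') :
    Iso (os B C) (os B' C') := by
  obtain ⟨e, he⟩ := h
  obtain ⟨f, hf⟩ := h'
  refine ⟨e.prodCongr f, fun v w => ?_⟩
  simp [he, hf]

theorem os_comm (B : N →ₗ[R] N →ₗ[R] R) (B' : N' →ₗ[R] N' →ₗ[R] R) : Iso (os B B') (os B' B) := by
  refine ⟨LinearEquiv.prodComm R N N', fun v w => ?_⟩
  simp [add_comm]

theorem os_assoc (B : N →ₗ[R] N →ₗ[R] R) (B' : N' →ₗ[R] N' →ₗ[R] R)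
    (B'' : N'' →ₗ[R] N'' →ₗ[R] R) : Iso (os (os B B') B'') (os B (os B' B'')) := by
  refine ⟨LinearEquiv.prodAssoc R N N' N'', fun v w => ?_⟩
  simp [add_assoc]

/-- `Fin.append` as a linear equivalence. -/
def apE (R : Type) [CommRing R] (n j : ℕ) : ((Fin n → R) × (Fin j → R)) ≃ₗ[R] (Fin (n + j) → R) where
  toFun p := Fin.append p.1 p.2
  invFun v := (fun i => v (Fin.castAdd j i), fun i => v (Fin.natAdd n i))
  left_inv p := by simp
  right_inv v := by
    funext i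
    refine Fin.addCases (fun i => ?_) (fun i => ?_) i <;> simp
  map_add' p q := by
    funext i
    refine Fin.addCases (fun i => ?_) (fun i => ?_) i <;> simp
  map_smul' c p := by
    funext i
    refine Fin.addCases (fun i => ?_) (fun i => ?_) i <;> simp

@[simp] theorem apE_dot (n j : ℕ) (p q : (Fin n → R) × (Fin j → R)) :
    (apE R n j p) ⬝ᵥ (apE R n j q) = p.1 ⬝ᵥ q.1 + p.2 ⬝ᵥ q.2 := by
  simp [apE, dotProduct, Fin.sum_univ_add]

theorem Hn_add (R : Type) [CommRing R] (n j : ℕ) : Iso (os (Hn R n) (Hn R j)) (Hn R (n + j)) := by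
  refine ⟨(LinearEquiv.prodProdProdComm R _ _ _ _).trans ((apE R n j).prodCongr (apE R n j)),
    fun v w => ?_⟩
  simp only [LinearEquiv.trans_apply, LinearEquiv.prodCongr_apply, Hn_apply, apE_dot, os_apply]
  simp only [LinearEquiv.prodProdProdComm_apply]
  ring

end iso

theorem fin_lem (h1 : G_CH) (h2 : G_DMD) : G_FIN := by
  intro R _ _ hu2 n u hu S hS hSH
  obtain ⟨j, r, hjr⟩ := hSH
  have hr : r = n + j := by
    obtain ⟨e, -⟩ := hjr
    have h3 := e.finrank_eq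
    simp only [Module.finrank_prod, Module.finrank_pi, Fintype.card_fin] at h3
    omega
  subst hr
  have hsymS : ∀ v w, mf S v w = mf S w v := by
    intro v w
    rw [mf_apply, mf_apply, dotProduct_comm, dotProduct_mulVec, ← mulVec_transpose, hS,
      dotProduct_comm]
  have hsymD : ∀ v w, mf (Matrix.diagonal u) v w = mf (Matrix.diagonal u) w v := by
    intro v w
    rw [mf_apply, mf_apply, dotProduct_comm, dotProduct_mulVec, ← mulVec_transpose,
      Matrix.diagonal_transpose, dotProduct_comm]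
  refine h1 R hu2 _ _ (mf S) (mf (Matrix.diagonal u)) hsymS hsymD (n + j) ?_
  have hD := h2 R hu2 n u hu
  set D := mf (Matrix.diagonal u)
  set D' := mf (Matrix.diagonal fun i => - u i)
  -- S ⊥ Hn (n + j) ≅ S ⊥ ((D ⊥ D') ⊥ Hn j)
  have a1 : Iso (os (mf S) (Hn R (n + j))) (os (mf S) (os (os D D') (Hn R j))) :=
    os_congr (iso_refl _) (iso_trans (iso_symm (Hn_add R n j))
      (os_congr (iso_symm hD) (iso_refl _)))
  have a2 : Iso (os (mf S) (os (os D D') (Hn R j))) (os (mf S) (os D (os D' (Hn R j)))) :=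
    os_congr (iso_refl _) (os_assoc _ _ _)
  have a3 : Iso (os (mf S) (os D (os D' (Hn R j)))) (os (os (mf S) D) (os D' (Hn R j))) :=
    iso_symm (os_assoc _ _ _)
  have a4 : Iso (os (os (mf S) D) (os D' (Hn R j))) (os (os D (mf S)) (os D' (Hn R j))) :=
    os_congr (os_comm _ _) (iso_refl _)
  have a5 : Iso (os (os D (mf S)) (os D' (Hn R j))) (os D (os (mf S) (os D' (Hn R j)))) :=
    os_assoc _ _ _
  have a6 : Iso (os D (os (mf S) (os D' (Hn R j)))) (os D (os (os (mf S) D') (Hn R j))) :=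
    os_congr (iso_refl _) (iso_symm (os_assoc _ _ _))
  have a7 : Iso (os D (os (os (mf S) D') (Hn R j))) (os D (Hn R (n + j))) :=
    os_congr (iso_refl _) hjr
  exact iso_trans a1 (iso_trans a2 (iso_trans a3 (iso_trans a4 (iso_trans a5 (iso_trans a6 a7)))))

end Pool.Agent.Helper32.PY
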