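import Pool.Agent.Helper71.PY.Goals

/-!
# Equality of the Pythagoras numbers from the representation theorem
-/

set_option autoImplicit false

namespace Pool.Agent.Helper32.PY

open Pool.Agent.Helper71.PY

/-- Clearing denominators in a sum of squares. -/
theorem clear_sumSq (R : Type) [CommRing R] [IsDomain R] (K : Type) [Field K] [Algebra R K]
    [IsFractionRing R K] (x : K) (hx : IsSumSq x) :
    ∃ (d : R) (s : R), d ≠ 0 ∧ IsSumSq s ∧
      algebraMap R K d * algebraMap R K d * x = algebraMap R K s := by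
  induction hx with
  | zero => exact ⟨1, 0, one_ne_zero, IsSumSq.zero, by simp⟩
  | sq_add a hs ih =>
    obtain ⟨d, s, hd, hs', h⟩ := ih
    obtain ⟨p, q, hq, hpq⟩ := IsFractionRing.div_surjective (A := R) a
    have hq0 : q ≠ 0 := nonZeroDivisors.ne_zero hq
    have hqK : algebraMap R K q ≠ 0 := by
      rw [Ne, FaithfulSMul.algebraMap_eq_zero_iff]
      exact hq0
    refine ⟨d * q, (d * p) * (d * p) + (q * q) * s, mul_ne_zero hd hq0, ?_, ?_⟩
    · refine IsSumSq.add (IsSumSq.mul_self _) ?_
      exact IsSumSq.mul (IsSumSq.mul_self _) hs'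
    · subst hpq
      simp only [map_mul, map_add]
      rw [← h]
      field_simp
  
theorem isSumSq_of_fin {A : Type} [CommSemiring A] {n : ℕ} (f : Fin n → A) :
    IsSumSq (∑ i, f i ^ 2) := by
  refine IsSumSq.sum fun i _ => ?_
  rw [sq]
  exact IsSumSq.mul_self _

theorem isSumSq_map {A B : Type} [CommSemiring A] [CommSemiring B] (φ : A →+* B) (x : A)
    (hx : IsSumSq x) : IsSumSq (φ x) := by
  induction hx with
  | zero => rw [map_zero]; exact IsSumSq.zero
  | sq_add a hs ih =>
    rw [map_add, map_mul]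
    exact IsSumSq.sq_add _ ih

theorem pyth (h : G_MAIN) : G_PYTH := by
  intro R _ _ _ _ hdim hgen h2 K _ _ _ n
  have hinj : Function.Injective (algebraMap R K) := FaithfulSMul.algebraMap_injective R K
  constructor
  · intro H x hx
    obtain ⟨d, s, hd, hs, he⟩ := clear_sumSq R K x hx
    obtain ⟨f, hf⟩ := H s hs
    have hdK : algebraMap R K d ≠ 0 := by
      rw [Ne, FaithfulSMul.algebraMap_eq_zero_iff]
      exact hd
    refine ⟨fun i => algebraMap R K (f i) / algebraMap R K d, ?_⟩
    have h3 : algebraMap R K s = ∑ i, algebraMap R K (f i) ^ 2 := by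
      rw [hf, map_sum]
      simp
    have h4 : x = (∑ i, algebraMap R K (f i) ^ 2) / (algebraMap R K d) ^ 2 := by
      rw [← h3, ← he]
      field_simp
    rw [h4, Finset.sum_div]
    refine Finset.sum_congr rfl fun i _ => ?_
    rw [div_pow]
  · intro H x hx
    obtain ⟨z, hz⟩ := H (algebraMap R K x) (isSumSq_map _ x hx)
    obtain ⟨y, hy⟩ := h R hdim hgen h2 K n (fun _ => 1) (fun _ => isUnit_one) x
      ⟨z, by simpa using hz⟩
    exact ⟨y, by simpa using hy⟩

end Pool.Agent.Helper32.PY
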